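import Pool.Agent.H.MP_48685d_an.C

namespace Pool.Agent.Results.MP_48685d_an.Unrestricted
open Filter Topology MeasureTheory Complex H.MP_48685d_an

theorem result (n : ℕ) (p : ℝ) (hp0 : 0 < p) (hp1 : p < 1) (Γ : Set (Fin n → ℝ))
    (hopen : IsOpen Γ) (hne : Γ.Nonempty) (hconv : Convex ℝ Γ)
    (hcone : ∀ y ∈ Γ, ∀ t : ℝ, 0 < t → t • y ∈ Γ)
    (_hline : ∀ a b : Fin n → ℝ, b ≠ 0 → ¬ ∀ t : ℝ, a + t • b ∈ closure Γ)
    (F : (Fin n → ℂ) → ℂ) (hF : DifferentiableOn ℂ F {z | (fun j => (z j).im) ∈ Γ})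
    (hHp : ⨆ y ∈ Γ, ∫⁻ x : Fin n → ℝ, ‖F fun j => x j + y j * I‖ₑ ^ p < ⊤) :
    ∃ F₀ : (Fin n → ℝ) → ℂ, Measurable F₀ ∧
      (∀ η ∈ Γ, ∀ g : (Fin n → ℝ) → ℂ,
        (∀ᵐ x : Fin n → ℝ, Tendsto (fun t : ℝ => F fun j => x j + (t * η j : ℝ) * I) (𝓝[>] 0)
          (𝓝 (g x))) → ∀ᵐ x : Fin n → ℝ, g x = F₀ x) ∧
      Tendsto (fun y : Fin n → ℝ => ∫⁻ x : Fin n → ℝ, ‖(F fun j => x j + y j * I) - F₀ x‖ₑ ^ p)
        (𝓝[Γ] 0) (𝓝 0) := by
  have e0 : ∀ z : ℂ, ‖z‖ₑ ^ p = .ofReal (‖z‖ ^ p) := fun z => by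
    rw [← ofReal_norm, ENNReal.ofReal_rpow_of_nonneg (norm_nonneg _) hp0.le]
  simp only [e0] at hHp ⊢
  have e1 : ∀ η ∈ Γ, Tendsto (fun k : ℕ => (1 / ((k : ℝ) + 1)) • η) atTop (𝓝[Γ] 0) := fun η h =>
    tendsto_nhdsWithin_iff.2 ⟨by simpa using (tendsto_one_div_add_atTop_nhds_zero_nat (𝕜 := ℝ)).smul_const η,
      .of_forall fun k => hcone η h _ (by positivity)⟩
  have := (e1 _ hne.choose_spec).neBot
  have e2 : ∀ y ∈ Γ, ∀ v ∈ Γ, ∀ t : ℝ, 0 ≤ t → y + t • v ∈ Γ := fun y hy v hv t ht => by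
    have := hcone _ (hconv hy hv (a := 1 / (1 + t)) (b := t / (1 + t)) (by positivity) (by positivity)
      (by field_simp)) (1 + t) (by positivity)
    rwa [smul_add, smul_smul, smul_smul, mul_div_cancel₀ _ (by positivity), mul_div_cancel₀ _
      (by positivity), one_smul] at this
  have hc : ContinuousOn (fun q : (Fin n → ℝ) × (Fin n → ℝ) => F fun j => q.1 j + q.2 j * I)
      {q | q.2 ∈ Γ} := hF.continuousOn.comp (by fun_prop) fun q hq => by simpa using hq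
  have hm : ∀ y ∈ Γ, Measurable fun x : Fin n → ℝ => F fun j => x j + y j * I := fun y hy =>
    (hc.comp_continuous (f := fun x => (x, y)) (by fun_prop) fun _ => hy).measurable
  obtain ⟨f, f1, f2⟩ := lim (μ := volume) hp0 hp1.le (l := 𝓝[Γ] 0) self_mem_nhdsWithin
    (u := fun y x => F fun j => x j + y j * I) hm (cauchy hp0 hp1.le hopen e2 hc (fun y hy v hv x =>
      (hF.comp (f := fun z : ℂ => fun j => (x j + y j * I : ℂ) + z * v j) (by fun_prop) fun z hz => by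
        simpa [Pi.add_def, Pi.smul_def] using e2 y hy v hv _ (le_of_lt hz)).congr fun z _ => by
          simp only [Function.comp, Pi.add_apply, Pi.smul_apply, smul_eq_mul]
          congr 2 with j
          conv_rhs => rw [← re_add_im z]
          push_cast; ring) hHp.ne fun y hy => by
      simpa [D] using le_iSup₂ (f := fun y (_ : y ∈ Γ) => ∫⁻ x : Fin n → ℝ,
        ENNReal.ofReal (‖F fun j => x j + y j * I‖ ^ p)) y hy)
  refine ⟨f, f1, fun η hη g hg => ?_, f2⟩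
  have h1 := fun k : ℕ => hm _ (hcone η hη (1 / ((k : ℝ) + 1)) (by positivity))
  have h2 := hg.mono fun x hx => hx.comp (tendsto_nhdsWithin_iff.2
    ⟨tendsto_one_div_add_atTop_nhds_zero_nat, .of_forall fun k => Set.mem_Ioi.2 (by positivity)⟩)
  have h3 := aemeasurable_of_tendsto_metrizable_ae' (fun k => (h1 k).aemeasurable) h2
  have h4 : D volume p f g = 0 := le_zero_iff.1 (le_of_forall_gt_imp_ge_of_dense fun c hc =>
    fat hp0 f1 h1 h2 (((f2.comp (e1 η hη)).eventually (ge_mem_nhds hc)).mono fun k hk =>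
      (D_comm _ _).trans_le hk))
  filter_upwards [(lintegral_eq_zero_iff' (by fun_prop)).1 h4] with x hx
  have := ENNReal.ofReal_eq_zero.1 hx
  exact (sub_eq_zero.1 (norm_eq_zero.1 (by_contra fun h => this.not_gt
    (Real.rpow_pos_of_pos ((norm_nonneg _).lt_of_ne' h) _)))).symm

end Pool.Agent.Results.MP_48685d_an.Unrestricted
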